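import Pool.Agent.helper55.GL.Spec

/-!
# Project gl: QSM: the property QG for a good separation
-/

set_option autoImplicit false

namespace Pool.Agent.GL

open SimpleGraph

theorem QSM_ex {V : Type} (H : SimpleGraph V) (A : Set V) (n : ℕ) :
    ex n (H.induce A) ≤ ex n H :=
  IsContained.extremalNumber_le ⟨(SimpleGraph.Embedding.induce A).toCopy⟩

theorem QSM (hSUM : SUM_stmt) (hRST : RST_stmt) (hLIN : LIN_stmt) : QSM_stmt := by
  intro V _ H c hc hiso A B hA hAB hno hAi hAe hBe hQA hQB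
  obtain ⟨CA, NA, hQA⟩ := hQA
  obtain ⟨CB, NB, hQB⟩ := hQB
  -- two edges
  have hed : ∃ e ∈ H.edgeSet, ∃ e' ∈ H.edgeSet, e ≠ e' := by
    obtain ⟨a, ha, b, hb, hab, -⟩ := hAe
    obtain ⟨v, hv⟩ := (Set.ne_univ_iff_exists_notMem A).mp hA
    obtain ⟨w, hw⟩ := hiso v
    refine ⟨s(a, b), hab, s(v, w), hw, ?_⟩
    intro h
    have h1 : v ∈ s(a, b) := by rw [h]; exact Sym2.mem_mk_left v w
    rw [Sym2.mem_iff] at h1
    rcases h1 with rfl | rfl
    · exact hv ha
    · exact hv hb
  refine ⟨CB + 2 ^ (Fintype.card V + 2) * CA + Fintype.card V * 3, max (max NA NB) 2, ?_⟩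
  intro n hn
  have hn1 : NA ≤ n := (le_max_left _ _).trans ((le_max_left _ _).trans hn)
  have hn2 : NB ≤ n := (le_max_right _ _).trans ((le_max_left _ _).trans hn)
  have hn3 : 2 ≤ n := (le_max_right _ _).trans hn
  have hsum := hSUM V H c hc Set.univ A B hAB hno hAi hAe hBe n
  have h1 : exs n H c A ≤ CA * ex n H := by
    rw [← hRST V H c A n (by omega)]
    exact (hQA n hn1).trans (Nat.mul_le_mul_left _ (QSM_ex H A n))
  have h2 : exs n H c B ≤ CB * ex n H := by
    rw [← hRST V H c B n (by omega)]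
    exact (hQB n hn2).trans (Nat.mul_le_mul_left _ (QSM_ex H B n))
  have h3 := hLIN V H hed n hn3
  calc exs n H c Set.univ
      ≤ exs n H c B + 2 ^ (Fintype.card V + 2) * exs n H c A + Fintype.card V * n := hsum
    _ ≤ CB * ex n H + 2 ^ (Fintype.card V + 2) * (CA * ex n H) +
        Fintype.card V * (3 * ex n H) := by
        gcongr
    _ = (CB + 2 ^ (Fintype.card V + 2) * CA + Fintype.card V * 3) * ex n H := by ring

end Pool.Agent.GL
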